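import Mathlib

set_option autoImplicit false

/-!
# The logarithmic space: nonzero complex numbers modulo radicals of elements of a field
-/

namespace Pool.Agent.E8helper75.ZP

open scoped TensorProduct

variable (K : Type) [Field K] [Algebra K ℂ]

/-- the nonzero elements of the field -/
noncomputable def HQ : Subgroup ℂˣ := (Units.map (algebraMap K ℂ).toMonoidHom).range

/-- the additive group `ℂˣ / Kˣ` -/
def QG : Type := Additive (ℂˣ ⧸ HQ K)

noncomputable instance : AddCommGroup (QG K) := inferInstanceAs (AddCommGroup (Additive (ℂˣ ⧸ HQ K)))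

/-- the class of a unit -/
noncomputable def cl : Additive ℂˣ →+ QG K where
  toFun u := Additive.ofMul (QuotientGroup.mk u.toMul : ℂˣ ⧸ HQ K)
  map_zero' := rfl
  map_add' _ _ := rfl

theorem cl_eq_zero {u : Additive ℂˣ} : cl K u = 0 ↔ u.toMul ∈ HQ K :=
  QuotientGroup.eq_one_iff u.toMul

/-- the vector space `(ℂˣ / Kˣ) ⊗ ℚ` -/
abbrev EE : Type := ℚ ⊗[ℤ] (QG K)

/-- the map `u ↦ u ⊗ 1` -/
noncomputable def eu (u : ℂˣ) : EE K := (1 : ℚ) ⊗ₜ[ℤ] (cl K (Additive.ofMul u))

theorem eu_mul (u v : ℂˣ) : eu K (u * v) = eu K u + eu K v := by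
  unfold eu
  rw [ofMul_mul, map_add, TensorProduct.tmul_add]

variable {K}

theorem eu_eq_zero {u : ℂˣ} (h : eu K u = 0) :
    ∃ n : ℕ, 0 < n ∧ ∃ q : K, ((u : ℂ)) ^ n = algebraMap K ℂ q := by
  have hl : IsLocalizedModule (nonZeroDivisors ℤ) (TensorProduct.mk ℤ ℚ (QG K) 1) :=
    (isLocalizedModule_iff_isBaseChange (nonZeroDivisors ℤ) ℚ _).2
      (TensorProduct.isBaseChange ℤ (QG K) ℚ)
  have h1 : (TensorProduct.mk ℤ ℚ (QG K) 1) (cl K (Additive.ofMul u)) = 0 := h
  obtain ⟨⟨c, hc⟩, h2⟩ := (IsLocalizedModule.eq_zero_iff (nonZeroDivisors ℤ)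
    (TensorProduct.mk ℤ ℚ (QG K) 1)).1 h1
  have hc0 : c ≠ 0 := nonZeroDivisors.ne_zero hc
  have h3 : c • (cl K (Additive.ofMul u)) = 0 := h2
  rw [← map_zsmul, ← ofMul_zpow, cl_eq_zero, toMul_ofMul] at h3
  obtain ⟨v, hv⟩ := h3
  have hv' : ((algebraMap K ℂ) (v : K)) = ((u ^ c : ℂˣ) : ℂ) := by
    have := congrArg (fun x : ℂˣ => (x : ℂ)) hv
    simpa using this
  rcases le_total 0 c with hcp | hcn
  · refine ⟨c.toNat, by omega, v, ?_⟩
    have hc1 : (c.toNat : ℤ) = c := Int.toNat_of_nonneg hcp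
    have h5 : ((u ^ c : ℂˣ) : ℂ) = (u : ℂ) ^ c.toNat := by
      conv_lhs => rw [← hc1]
      rw [zpow_natCast]; push_cast; rfl
    rw [← h5, ← hv']
  · refine ⟨(-c).toNat, by omega, (v : K)⁻¹, ?_⟩
    have hc1 : ((-c).toNat : ℤ) = -c := Int.toNat_of_nonneg (by omega)
    have h5 : ((u ^ c : ℂˣ) : ℂ)⁻¹ = (u : ℂ) ^ (-c).toNat := by
      rw [← Units.val_inv_eq_inv_val, ← zpow_neg, ← hc1, zpow_natCast]
      push_cast; rfl
    rw [← h5, ← hv', map_inv₀]

theorem eu_rat {u : ℂˣ} {q : K} (h : (u : ℂ) = algebraMap K ℂ q) : eu K u = 0 := by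
  have hq : q ≠ 0 := by
    rintro rfl
    exact u.ne_zero (by rw [h]; simp)
  have hu : u ∈ HQ K := by
    refine ⟨Units.mk0 q hq, ?_⟩
    ext
    simp [h]
  unfold eu
  rw [(cl_eq_zero K (u := Additive.ofMul u)).2 hu, TensorProduct.tmul_zero]

variable (K)

open Classical in
/-- the logarithmic class of a complex number (zero for `0`) -/
noncomputable def el (x : ℂ) : EE K := if h : x = 0 then 0 else eu K (Units.mk0 x h)

theorem el_of_ne {x : ℂ} (h : x ≠ 0) : el K x = eu K (Units.mk0 x h) := by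
  unfold el; rw [dif_neg h]

theorem el_mul {x y : ℂ} (hx : x ≠ 0) (hy : y ≠ 0) : el K (x * y) = el K x + el K y := by
  rw [el_of_ne K hx, el_of_ne K hy, el_of_ne K (mul_ne_zero hx hy), ← eu_mul]
  congr 1
  ext
  simp

theorem el_rat (q : K) : el K (algebraMap K ℂ q) = 0 := by
  by_cases hq : q = 0
  · unfold el; rw [dif_pos (by rw [hq]; simp)]
  · have : algebraMap K ℂ q ≠ 0 := by simpa using hq
    rw [el_of_ne K this]
    exact eu_rat rfl

theorem el_one : el K 1 = 0 := by simpa using el_rat K 1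

theorem el_inv {x : ℂ} (hx : x ≠ 0) : el K x⁻¹ = - el K x := by
  have h := el_mul K hx (inv_ne_zero hx)
  rw [mul_inv_cancel₀ hx, el_one] at h
  exact (neg_eq_of_add_eq_zero_right h.symm).symm

theorem el_div {x y : ℂ} (hx : x ≠ 0) (hy : y ≠ 0) : el K (x / y) = el K x - el K y := by
  rw [div_eq_mul_inv, el_mul K hx (inv_ne_zero hy), el_inv K hy, sub_eq_add_neg]

theorem el_pow {x : ℂ} (hx : x ≠ 0) (n : ℕ) : el K (x ^ n) = n • el K x := by
  induction n with
  | zero => simp [el_one]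
  | succ n ih => rw [pow_succ, el_mul K (pow_ne_zero _ hx) hx, ih, succ_nsmul]

theorem el_prod {ι : Type*} (s : Finset ι) (f : ι → ℂ) (h : ∀ i ∈ s, f i ≠ 0) :
    el K (∏ i ∈ s, f i) = ∑ i ∈ s, el K (f i) := by
  classical
  induction s using Finset.induction_on with
  | empty => simp [el_one]
  | insert a s ha ih =>
    rw [Finset.prod_insert ha, Finset.sum_insert ha, el_mul K (h a (Finset.mem_insert_self _ _))
      (Finset.prod_ne_zero_iff.2 fun i hi => h i (Finset.mem_insert_of_mem hi)),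
      ih fun i hi => h i (Finset.mem_insert_of_mem hi)]

theorem el_multiset {ι : Type*} (m : Multiset ι) (f : ι → ℂ) (h : ∀ i ∈ m, f i ≠ 0) :
    el K (m.map f).prod = (m.map fun i => el K (f i)).sum := by
  induction m using Multiset.induction_on with
  | empty => simp [el_one]
  | cons a m ih =>
    rw [Multiset.map_cons, Multiset.prod_cons, Multiset.map_cons, Multiset.sum_cons,
      el_mul K (h a (Multiset.mem_cons_self _ _)), ih fun i hi => h i (Multiset.mem_cons_of_mem hi)]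
    refine Multiset.prod_ne_zero ?_
    intro h0
    obtain ⟨i, hi, h1⟩ := Multiset.mem_map.1 h0
    exact h i (Multiset.mem_cons_of_mem hi) h1

theorem el_eq_zero {x : ℂ} (hx : x ≠ 0) (h : el K x = 0) :
    ∃ n : ℕ, 0 < n ∧ ∃ q : K, x ^ n = algebraMap K ℂ q := by
  rw [el_of_ne K hx] at h
  simpa using eu_eq_zero h

end Pool.Agent.E8helper75.ZP
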