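import Mathlib
import Pool.Agent.E8helper75.ZP.El

set_option autoImplicit false

/-!
# Factorisation of polynomials and the logarithmic space
-/

namespace Pool.Agent.E8helper75.ZP

open MvPolynomial

variable {K : Type} [Field K]

/-- polynomials with coefficients in `K` in `r` variables -/
abbrev RR (K : Type) [Field K] (r : ℕ) : Type := MvPolynomial (Fin r) K

/-- the irreducible polynomials, up to constants -/
def Irr (K : Type) [Field K] (r : ℕ) : Type := {a : Associates (RR K r) // Irreducible a}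

/-- a representative -/
noncomputable def rep {r : ℕ} (a : Irr K r) : RR K r := Quot.out a.1

theorem mk_rep {r : ℕ} (a : Irr K r) : Associates.mk (rep a) = a.1 := Quot.out_eq a.1

theorem rep_irr {r : ℕ} (a : Irr K r) : Irreducible (rep a) := by
  rw [← Associates.irreducible_mk, mk_rep]; exact a.2

theorem rep_prime {r : ℕ} (a : Irr K r) : Prime (rep a) := (rep_irr a).prime

theorem rep_ne {r : ℕ} (a : Irr K r) : rep a ≠ 0 := (rep_irr a).ne_zero

theorem rep_dvd {r : ℕ} {a b : Irr K r} (h : rep a ∣ rep b) : a = b := by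
  have h1 : Associated (rep a) (rep b) :=
    (rep_irr a).associated_of_dvd (rep_irr b) h
  have h2 : Associates.mk (rep a) = Associates.mk (rep b) := Associates.mk_eq_mk_iff_associated.2 h1
  rw [mk_rep, mk_rep] at h2
  exact Subtype.ext h2

theorem unit_eq {r : ℕ} {u : RR K r} (h : IsUnit u) : ∃ q : K, q ≠ 0 ∧ u = C q := by
  obtain ⟨q, hq, h1⟩ := (MvPolynomial.isUnit_iff_eq_C_of_isReduced).1 h
  exact ⟨q, hq.ne_zero, h1⟩

theorem one_le_deg {r : ℕ} {p : RR K r} (h : Irreducible p) : 1 ≤ p.totalDegree := by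
  by_contra h0
  have h1 : p.totalDegree = 0 := by omega
  rw [totalDegree_eq_zero_iff_eq_C] at h1
  have h2 : p.coeff 0 ≠ 0 := by
    intro h3
    rw [h3, C_0] at h1
    exact h.ne_zero h1
  exact h.not_isUnit (by rw [h1]; exact (IsUnit.mk0 _ h2).map C)

/-- the value of a product of representatives -/
noncomputable def mprod {r : ℕ} (m : Multiset (Irr K r)) : RR K r := (m.map rep).prod

theorem exists_fac {r : ℕ} (P : RR K r) (hP : P ≠ 0) :
    ∃ m : Multiset (Irr K r), ∃ q : K, q ≠ 0 ∧ P = C q * mprod m ∧ Multiset.card m ≤ P.totalDegree := by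
  induction P using WfDvdMonoid.induction_on_irreducible with
  | zero => exact absurd rfl hP
  | unit u hu =>
    obtain ⟨q, hq, h1⟩ := unit_eq hu
    exact ⟨0, q, hq, by rw [h1]; simp [mprod], by simp⟩
  | mul a i ha hi ih =>
    obtain ⟨m, q, hq, h1, h2⟩ := ih ha
    have h3 : Irreducible (Associates.mk i) := Associates.irreducible_mk.2 hi
    let t : Irr K r := ⟨Associates.mk i, h3⟩
    have h4 : Associated (rep t) i := by
      rw [← Associates.mk_eq_mk_iff_associated, mk_rep]
    obtain ⟨v, hv⟩ := h4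
    obtain ⟨q', hq', h5⟩ := unit_eq v.isUnit
    refine ⟨t ::ₘ m, q' * q, mul_ne_zero hq' hq, ?_, ?_⟩
    · rw [← hv, h1, h5]
      unfold mprod
      rw [Multiset.map_cons, Multiset.prod_cons, C_mul]
      ring
    · rw [Multiset.card_cons, totalDegree_mul_of_isDomain hi.ne_zero ha]
      have := one_le_deg hi
      omega

theorem mprod_ne {r : ℕ} (m : Multiset (Irr K r)) : mprod m ≠ 0 := by
  refine Multiset.prod_ne_zero ?_
  intro h
  obtain ⟨a, _, h1⟩ := Multiset.mem_map.1 h
  exact rep_ne a h1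

theorem mprod_add {r : ℕ} (m m' : Multiset (Irr K r)) : mprod (m + m') = mprod m * mprod m' := by
  unfold mprod
  rw [Multiset.map_add, Multiset.prod_add]

/-- the exponent vector of a multiset -/
noncomputable def FF {r : ℕ} : Multiset (Irr K r) →+ (Irr K r →₀ ℚ) := by
  classical
  exact (Finsupp.mapRange.addMonoidHom (Nat.castAddMonoidHom ℚ)).comp
    (Multiset.toFinsupp (α := Irr K r)).toAddMonoidHom

open Classical in
theorem FF_apply {r : ℕ} (m : Multiset (Irr K r)) (a : Irr K r) : FF m a = (m.count a : ℚ) := by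
  unfold FF
  simp only [AddMonoidHom.comp_apply, Finsupp.mapRange.addMonoidHom_apply, Finsupp.mapRange_apply]
  rfl

theorem FF_inj {r : ℕ} {m m' : Multiset (Irr K r)} (h : FF m = FF m') : m = m' := by
  classical
  ext a
  have := congrArg (fun f => f a) h
  simp only [FF_apply] at this
  exact_mod_cast this

theorem FF_singleton {r : ℕ} (a : Irr K r) : FF {a} = Finsupp.single a 1 := by
  classical
  ext b
  rw [FF_apply, Multiset.count_singleton, Finsupp.single_apply]
  by_cases h : b = a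
  · rw [if_pos h, if_pos h.symm]; simp
  · rw [if_neg h, if_neg (Ne.symm h)]; simp

section theta

variable [Algebra K ℂ] {r : ℕ} {θ : Fin r → ℂ} (hθ : AlgebraicIndependent K θ)

include hθ

theorem ev_ne {P : RR K r} (hP : P ≠ 0) : aeval θ P ≠ 0 := by
  intro h
  exact hP (hθ (by rw [h, map_zero]))

theorem linInd : LinearIndependent ℚ (fun a : Irr K r => el K (aeval θ (rep a))) := by
  rw [← LinearIndependent.iff_fractionRing (R := ℤ) (K := ℚ), linearIndependent_iff']
  intro s g hg a ha
  classical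
  set A : RR K r := ∏ b ∈ s, rep b ^ (g b).toNat with hA
  set B : RR K r := ∏ b ∈ s, rep b ^ (-g b).toNat with hB
  have hA0 : A ≠ 0 := Finset.prod_ne_zero_iff.2 fun b _ => pow_ne_zero _ (rep_ne b)
  have hB0 : B ≠ 0 := Finset.prod_ne_zero_iff.2 fun b _ => pow_ne_zero _ (rep_ne b)
  have hne : ∀ b : Irr K r, aeval θ (rep b) ≠ 0 := fun b => ev_ne hθ (rep_ne b)
  have eA : el K (aeval θ A) = ∑ b ∈ s, (g b).toNat • el K (aeval θ (rep b)) := by
    rw [hA, map_prod, el_prod]
    · refine Finset.sum_congr rfl fun b _ => ?_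
      rw [map_pow, el_pow K (hne b)]
    · intro b _
      rw [map_pow]; exact pow_ne_zero _ (hne b)
  have eB : el K (aeval θ B) = ∑ b ∈ s, (-g b).toNat • el K (aeval θ (rep b)) := by
    rw [hB, map_prod, el_prod]
    · refine Finset.sum_congr rfl fun b _ => ?_
      rw [map_pow, el_pow K (hne b)]
    · intro b _
      rw [map_pow]; exact pow_ne_zero _ (hne b)
  have e1 : el K (aeval θ A / aeval θ B) = 0 := by
    rw [el_div K (ev_ne hθ hA0) (ev_ne hθ hB0), eA, eB, ← Finset.sum_sub_distrib, ← hg]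
    refine Finset.sum_congr rfl fun b _ => ?_
    have h1 : g b = ((g b).toNat : ℤ) - ((-g b).toNat : ℤ) := by omega
    conv_rhs => rw [h1]
    rw [sub_smul, natCast_zsmul, natCast_zsmul]
  obtain ⟨n, hn, q, hq⟩ := el_eq_zero K (div_ne_zero (ev_ne hθ hA0) (ev_ne hθ hB0)) e1
  have e2 : A ^ n = C q * B ^ n := by
    apply hθ
    rw [map_pow, map_mul, map_pow, MvPolynomial.aeval_C]
    rw [div_pow, div_eq_iff (pow_ne_zero _ (ev_ne hθ hB0))] at hq
    rw [hq]
  have hq0 : q ≠ 0 := by
    rintro rfl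
    rw [C_0, zero_mul] at e2
    exact hA0 ((pow_eq_zero_iff hn.ne').1 e2)
  rcases lt_trichotomy (g a) 0 with h | h | h
  · exfalso
    have h1 : rep a ∣ B ^ n := by
      refine dvd_pow ?_ hn.ne'
      exact (dvd_pow_self _ (by omega : (-g a).toNat ≠ 0)).trans (Finset.dvd_prod_of_mem _ ha)
    have h2 : rep a ∣ A ^ n := by rw [e2]; exact dvd_mul_of_dvd_right h1 _
    obtain ⟨b, hb, h3⟩ := ((rep_prime a).dvd_finsetProd_iff _).1 ((rep_prime a).dvd_of_dvd_pow h2)
    have h4 := rep_dvd ((rep_prime a).dvd_of_dvd_pow h3)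
    rw [← h4, show (g a).toNat = 0 by omega, pow_zero] at h3
    exact (rep_prime a).not_isUnit (isUnit_of_dvd_one h3)
  · exact h
  · exfalso
    have h1 : rep a ∣ A ^ n := by
      refine dvd_pow ?_ hn.ne'
      exact (dvd_pow_self _ (by omega : (g a).toNat ≠ 0)).trans (Finset.dvd_prod_of_mem _ ha)
    rw [e2] at h1
    rcases (rep_prime a).dvd_or_dvd h1 with h2 | h2
    · exact (rep_prime a).not_isUnit (isUnit_of_dvd_unit h2 ((IsUnit.mk0 q hq0).map C))
    · obtain ⟨b, hb, h3⟩ := ((rep_prime a).dvd_finsetProd_iff _).1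
        ((rep_prime a).dvd_of_dvd_pow h2)
      have h4 := rep_dvd ((rep_prime a).dvd_of_dvd_pow h3)
      rw [← h4, show (-g a).toNat = 0 by omega, pow_zero] at h3
      exact (rep_prime a).not_isUnit (isUnit_of_dvd_one h3)

omit hθ in
/-- the linear map from exponent vectors to the logarithmic space -/
noncomputable def Psi (K : Type) [Field K] [Algebra K ℂ] (θ : Fin r → ℂ) :
    (Irr K r →₀ ℚ) →ₗ[ℚ] EE K :=
  Finsupp.linearCombination ℚ (fun a : Irr K r => el K (aeval θ (rep a)))

theorem Psi_inj : Function.Injective (Psi K θ) := linInd hθ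

theorem Psi_FF (m : Multiset (Irr K r)) : Psi K θ (FF m) = el K (aeval θ (mprod m)) := by
  induction m using Multiset.induction_on with
  | empty =>
    rw [map_zero, map_zero]
    simp [mprod, el_one]
  | cons a m ih =>
    have h1 : mprod (a ::ₘ m) = rep a * mprod m := by simp [mprod]
    rw [h1, map_mul, el_mul K (ev_ne hθ (rep_ne a)) (ev_ne hθ (mprod_ne m)), ← ih,
      ← Multiset.singleton_add, map_add, map_add, FF_singleton]
    congr 1
    simp [Psi]

omit hθ in
/-- `x` is a quotient of two polynomials of degree at most `N` -/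
def Quo (K : Type) [Field K] [Algebra K ℂ] (θ : Fin r → ℂ) (N : ℕ) (x : ℂ) : Prop :=
  ∃ P Q : RR K r, P.totalDegree ≤ N ∧ Q.totalDegree ≤ N ∧ aeval θ Q ≠ 0 ∧
    x * aeval θ Q = aeval θ P

theorem Quo.fac {N : ℕ} {x : ℂ} (h : Quo K θ N x) (hx : x ≠ 0) :
    ∃ m m' : Multiset (Irr K r), Multiset.card m ≤ N ∧ Multiset.card m' ≤ N ∧ ∃ q : K, q ≠ 0 ∧
      x * aeval θ (mprod m') = algebraMap K ℂ q * aeval θ (mprod m) ∧
      el K x = Psi K θ (FF m - FF m') := by
  obtain ⟨P, Q, hP, hQ, hQ0, hxQ⟩ := h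
  have hQ1 : Q ≠ 0 := by rintro rfl; simp at hQ0
  have hP1 : P ≠ 0 := by
    rintro rfl
    rw [map_zero] at hxQ
    exact mul_ne_zero hx hQ0 hxQ
  obtain ⟨m, q, hq, h1, h2⟩ := exists_fac P hP1
  obtain ⟨m', q', hq', h1', h2'⟩ := exists_fac Q hQ1
  have hq'c : algebraMap K ℂ q' ≠ 0 := by simpa using hq'
  have hqc : algebraMap K ℂ q ≠ 0 := by simpa using hq
  have e : x * aeval θ (mprod m') = algebraMap K ℂ (q / q') * aeval θ (mprod m) := by
    rw [h1, h1', map_mul, map_mul, aeval_C, aeval_C] at hxQ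
    rw [map_div₀]
    field_simp
    linear_combination hxQ
  refine ⟨m, m', h2.trans hP, h2'.trans hQ, q / q', div_ne_zero hq hq', e, ?_⟩
  have h7 := congrArg (el K) e
  rw [el_mul K hx (ev_ne hθ (mprod_ne m')), el_mul K (by rw [map_div₀]; exact div_ne_zero hqc hq'c)
    (ev_ne hθ (mprod_ne m)), el_rat, zero_add, ← Psi_FF hθ, ← Psi_FF hθ] at h7
  rw [map_sub, ← h7]
  abel

/-- two quotients with the same logarithmic class are multiples of each other -/
theorem Quo.rat {N : ℕ} {x y : ℂ} (h : Quo K θ N x) (hx : x ≠ 0) (h' : Quo K θ N y) (hy : y ≠ 0)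
    (he : el K x = el K y) : ∃ q : K, x = algebraMap K ℂ q * y := by
  obtain ⟨m, m', -, -, q, hq, e, e1⟩ := h.fac hθ hx
  obtain ⟨l, l', -, -, t, ht, f, f1⟩ := h'.fac hθ hy
  have h1 : FF (m + l') = FF (l + m') := by
    have := Psi_inj hθ (e1.symm.trans (he.trans f1))
    rw [map_add, map_add]
    rw [sub_eq_sub_iff_add_eq_add] at this
    exact this
  have h2 := FF_inj h1
  have h3 : aeval θ (mprod m) * aeval θ (mprod l') = aeval θ (mprod l) * aeval θ (mprod m') := by
    rw [← map_mul, ← map_mul, ← mprod_add, ← mprod_add, h2]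
  have hm' := ev_ne hθ (mprod_ne m')
  have hl := ev_ne hθ (mprod_ne l)
  have htc : algebraMap K ℂ t ≠ 0 := by simpa using ht
  refine ⟨q / t, ?_⟩
  rw [map_div₀]
  have hl' := ev_ne hθ (mprod_ne l')
  have ex : x = algebraMap K ℂ q * aeval θ (mprod m) / aeval θ (mprod m') := by
    rw [eq_div_iff hm']; exact e
  have ey : y = algebraMap K ℂ t * aeval θ (mprod l) / aeval θ (mprod l') := by
    rw [eq_div_iff hl']; exact f
  rw [ex, ey]
  field_simp
  linear_combination (algebraMap K ℂ q) * h3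

end theta

end Pool.Agent.E8helper75.ZP
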