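import Mathlib
import Pool.Agent.E8helper75.ZP.Fac
import Pool.Agent.Y918.QC.LO

set_option autoImplicit false

/-!
# Counting subset products which are quotients of polynomials of small degree
-/

namespace Pool.Agent.E8helper75.ZP

open Finset Module

/-- coordinates determining the elements of a finite-dimensional space -/
theorem exists_coords {ι : Type*} : ∀ (d : ℕ) (Z : Submodule ℚ (ι →₀ ℚ)),
    FiniteDimensional ℚ Z → finrank ℚ Z ≤ d →
    ∃ T : Finset ι, T.card ≤ d ∧ ∀ z ∈ Z, (∀ a ∈ T, z a = 0) → z = 0 := by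
  classical
  intro d
  induction d with
  | zero =>
    intro Z hZ hd
    refine ⟨∅, by simp, fun z hz _ => ?_⟩
    have h1 : Z = ⊥ := Submodule.finrank_eq_zero.1 (by omega)
    rw [h1] at hz
    exact (Submodule.mem_bot ℚ).1 hz
  | succ d ih =>
    intro Z hZ hd
    by_cases h0 : Z = ⊥
    · refine ⟨∅, by simp, fun z hz _ => ?_⟩
      rw [h0] at hz
      exact (Submodule.mem_bot ℚ).1 hz
    obtain ⟨z, hz, hz0⟩ := (Submodule.ne_bot_iff Z).1 h0
    obtain ⟨a, ha⟩ : ∃ a, z a ≠ 0 := by
      by_contra hcon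
      push Not at hcon
      exact hz0 (Finsupp.ext hcon)
    have hlt : Z ⊓ LinearMap.ker (Finsupp.lapply a : (ι →₀ ℚ) →ₗ[ℚ] ℚ) < Z := by
      refine lt_of_le_of_ne inf_le_left ?_
      intro h
      rw [← h] at hz
      exact ha hz.2
    have hfin : FiniteDimensional ℚ ↥(Z ⊓ LinearMap.ker (Finsupp.lapply a : (ι →₀ ℚ) →ₗ[ℚ] ℚ)) :=
      Submodule.finiteDimensional_inf_left _ _
    have hrk := Submodule.finrank_lt_finrank_of_lt hlt
    obtain ⟨T, hT, hT2⟩ := ih _ hfin (by omega)
    refine ⟨insert a T, (card_insert_le _ _).trans (by omega), fun w hw hw2 => ?_⟩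
    refine hT2 w ⟨hw, hw2 a (mem_insert_self _ _)⟩ fun c hc => hw2 c (mem_insert_of_mem hc)

open Classical in
/-- a code for the part of a multiset in `T` -/
noncomputable def cd {ι : Type*} (T : Finset ι) (N : ℕ) (m : Multiset ι) : Fin N → Option ι :=
  fun i => (m.filter (· ∈ T)).toList[(i : ℕ)]?

open Classical in
theorem cd_mem {ι : Type*} (T : Finset ι) (N : ℕ) (m : Multiset ι) :
    cd T N m ∈ Fintype.piFinset (fun _ : Fin N => insert none (T.image some)) := by
  rw [Fintype.mem_piFinset]
  intro i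
  unfold cd
  rcases h : (m.filter (· ∈ T)).toList[(i : ℕ)]? with _ | a
  · exact mem_insert_self _ _
  · have h1 := List.mem_of_getElem? h
    rw [Multiset.mem_toList, Multiset.mem_filter] at h1
    exact mem_insert_of_mem (mem_image_of_mem _ h1.2)

open Classical in
theorem cd_inj {ι : Type*} (T : Finset ι) (N : ℕ) {m m' : Multiset ι} (hm : Multiset.card m ≤ N)
    (hm' : Multiset.card m' ≤ N) (h : cd T N m = cd T N m') :
    m.filter (· ∈ T) = m'.filter (· ∈ T) := by
  have h1 : (m.filter (· ∈ T)).toList = (m'.filter (· ∈ T)).toList := by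
    apply List.ext_getElem?
    intro i
    by_cases hi : i < N
    · exact congrFun h ⟨i, hi⟩
    · have l1 : (m.filter (· ∈ T)).toList.length ≤ N := by
        rw [Multiset.length_toList]
        exact (Multiset.card_le_card (Multiset.filter_le _ _)).trans hm
      have l2 : (m'.filter (· ∈ T)).toList.length ≤ N := by
        rw [Multiset.length_toList]
        exact (Multiset.card_le_card (Multiset.filter_le _ _)).trans hm'
      rw [List.getElem?_eq_none (by omega), List.getElem?_eq_none (by omega)]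
  rw [← Multiset.coe_toList (m.filter (· ∈ T)), h1, Multiset.coe_toList]

/-- the number of exponent vectors of quotients of degree at most `N` in a translate of a space -/
theorem count_vec {K : Type} [Field K] {r : ℕ} {X : Type*} (A : Finset X) (z : X → (Irr K r →₀ ℚ)) (N d : ℕ)
    (Z : Submodule ℚ (Irr K r →₀ ℚ)) (hZ : FiniteDimensional ℚ Z) (hd : finrank ℚ Z ≤ d)
    (hinj : Set.InjOn z A) (hdiff : ∀ x ∈ A, ∀ y ∈ A, z x - z y ∈ Z)
    (hrep : ∀ x ∈ A, ∃ m m' : Multiset (Irr K r), Multiset.card m ≤ N ∧ Multiset.card m' ≤ N ∧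
      z x = FF m - FF m') :
    A.card ≤ (d + 1) ^ (2 * N) := by
  classical
  obtain ⟨T, hT, hT2⟩ := exists_coords d Z hZ hd
  choose! m m' h1 h2 h3 using hrep
  set B := Fintype.piFinset (fun _ : Fin N => (insert none (T.image some) : Finset (Option (Irr K r))))
    with hB
  have hBc : B.card ≤ (d + 1) ^ N := by
    rw [hB, Fintype.card_piFinset, prod_const, card_univ, Fintype.card_fin]
    refine Nat.pow_le_pow_left ?_ N
    exact (card_insert_le _ _).trans (Nat.succ_le_succ (card_image_le.trans hT))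
  have h4 : A.card ≤ (B ×ˢ B).card := by
    refine card_le_card_of_injOn (fun x => (cd T N (m x), cd T N (m' x))) ?_ ?_
    · intro x hx
      rw [mem_coe, mem_product]
      exact ⟨cd_mem T N (m x), cd_mem T N (m' x)⟩
    · intro x hx y hy hxy
      have e1 : cd T N (m x) = cd T N (m y) := congrArg Prod.fst hxy
      have e2 : cd T N (m' x) = cd T N (m' y) := congrArg Prod.snd hxy
      have f1 := cd_inj T N (h1 x hx) (h1 y hy) e1
      have f2 := cd_inj T N (h2 x hx) (h2 y hy) e2
      refine hinj hx hy (sub_eq_zero.1 (hT2 _ (hdiff x hx y hy) fun a ha => ?_))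
      have g : ∀ l l' : Multiset (Irr K r), l.filter (· ∈ T) = l'.filter (· ∈ T) →
          l.count a = l'.count a := by
        intro l l' hl
        have := congrArg (Multiset.count a) hl
        rwa [Multiset.count_filter_of_pos ha, Multiset.count_filter_of_pos ha] at this
      rw [h3 x hx, h3 y hy]
      simp only [Finsupp.coe_sub, Pi.sub_apply, FF_apply]
      rw [g _ _ f1, g _ _ f2]
      ring
  rw [card_product] at h4
  calc A.card ≤ B.card * B.card := h4
    _ ≤ (d + 1) ^ N * (d + 1) ^ N := Nat.mul_le_mul hBc hBc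
    _ = _ := by rw [← pow_add]; congr 1; omega

open Classical in
/-- counting subsets by their part in `J` -/
theorem count_fiber {X : Type*} (U J : Finset X) (hJ : J ⊆ U) (bad : Finset X → Prop) (C : ℕ)
    (h : ∀ R ⊆ U \ J, (J.powerset.filter (fun S => bad (R ∪ S))).card ≤ C) :
    (U.powerset.filter bad).card ≤ 2 ^ (U.card - J.card) * C := by
  have h2 : (U.powerset.filter bad).card =
      ∑ R ∈ (U \ J).powerset, ((U.powerset.filter bad).filter (fun S => S \ J = R)).card := by
    apply Finset.card_eq_sum_card_fiberwise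
    intro S hS
    rw [Finset.mem_coe, Finset.mem_filter, Finset.mem_powerset] at hS
    rw [Finset.mem_coe, Finset.mem_powerset]
    exact Finset.sdiff_subset_sdiff hS.1 (Finset.Subset.refl J)
  rw [h2]
  calc _ ≤ ∑ R ∈ (U \ J).powerset, C := by
        apply Finset.sum_le_sum
        intro R hR
        rw [Finset.mem_powerset] at hR
        refine le_trans (Finset.card_le_card_of_injOn (fun S => S ∩ J) ?_ ?_) (h R hR)
        · intro S hS
          rw [Finset.mem_coe, Finset.mem_filter, Finset.mem_filter] at hS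
          rw [Finset.mem_coe, Finset.mem_filter, Finset.mem_powerset]
          refine ⟨Finset.inter_subset_right, ?_⟩
          rw [← hS.2, Finset.sdiff_union_inter]
          exact hS.1.2
        · intro S hS S' hS' hSS
          rw [Finset.mem_coe, Finset.mem_filter] at hS hS'
          have e1 : S ∩ J = S' ∩ J := hSS
          have e2 : S \ J = S' \ J := hS.2.trans hS'.2.symm
          rw [← Finset.sdiff_union_inter S J, ← Finset.sdiff_union_inter S' J, e1, e2]
    _ = _ := by
        rw [Finset.sum_const, smul_eq_mul, Finset.card_powerset,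
          Finset.card_sdiff_of_subset hJ]

section main

variable {K : Type} [Field K] [Algebra K ℂ] {r : ℕ} {θ : Fin r → ℂ}
  (hθ : AlgebraicIndependent K θ)

theorem comap_finrank (hθ : AlgebraicIndependent K θ) (L : Submodule ℚ (EE K))
    (hL : FiniteDimensional ℚ L) :
    FiniteDimensional ℚ (L.comap (Psi K θ)) ∧ finrank ℚ (L.comap (Psi K θ)) ≤ finrank ℚ L := by
  have hinj := Psi_inj hθ
  let f : (L.comap (Psi K θ)) →ₗ[ℚ] L := (Psi K θ).restrict (fun x hx => hx)
  have hf : Function.Injective f := by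
    intro x y hxy
    apply Subtype.ext
    apply hinj
    exact congrArg Subtype.val hxy
  exact ⟨FiniteDimensional.of_injective f hf, LinearMap.finrank_le_finrank_of_injective hf⟩

include hθ in
/-- the exponent vector of the value of a product, if it is a quotient -/
theorem exists_vec {X : Type*} (zc : X → ℂ) (hz : ∀ k, zc k ≠ 0) (b : ℂ) (hb : b ≠ 0) (N : ℕ)
    (S : Finset X) (h : Quo K θ N (b * ∏ k ∈ S, zc k)) :
    ∃ v : Irr K r →₀ ℚ, (∃ m m' : Multiset (Irr K r), Multiset.card m ≤ N ∧ Multiset.card m' ≤ N ∧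
      v = FF m - FF m') ∧ Psi K θ v = el K b + ∑ k ∈ S, el K (zc k) := by
  have hp : (∏ k ∈ S, zc k) ≠ 0 := Finset.prod_ne_zero_iff.2 fun k _ => hz k
  obtain ⟨m, m', h1, h2, -, -, -, h3⟩ := h.fac hθ (mul_ne_zero hb hp)
  refine ⟨FF m - FF m', ⟨m, m', h1, h2, rfl⟩, ?_⟩
  rw [← h3, el_mul K hb hp, el_prod K _ _ fun k _ => hz k]

open Classical in
include hθ in
/-- many multiplicatively independent factors -/
theorem case_indep {X : Type*} (zc : X → ℂ) (hz : ∀ k, zc k ≠ 0) (b : ℂ) (hb : b ≠ 0) (N : ℕ)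
    (U J : Finset X) (hJ : J ⊆ U)
    (hind : LinearIndependent ℚ (fun k : J => el K (zc k))) :
    (U.powerset.filter (fun S => Quo K θ N (b * ∏ k ∈ S, zc k))).card ≤
      2 ^ (U.card - J.card) * (J.card + 1) ^ (2 * N) := by
  refine count_fiber U J hJ _ _ fun R hR => ?_
  set L : Submodule ℚ (EE K) := Submodule.span ℚ ((J.image fun k => el K (zc k) : Finset (EE K)) : Set (EE K))
    with hL
  have hLf : FiniteDimensional ℚ L := FiniteDimensional.span_finset ℚ _
  have hLr : finrank ℚ L ≤ J.card := (finrank_span_finset_le_card _).trans card_image_le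
  obtain ⟨hZ, hZr⟩ := comap_finrank hθ L hLf
  have key : ∀ S ∈ J.powerset.filter (fun S => Quo K θ N (b * ∏ k ∈ (R ∪ S), zc k)),
      ∃ v : Irr K r →₀ ℚ, (∃ m m' : Multiset (Irr K r), Multiset.card m ≤ N ∧ Multiset.card m' ≤ N ∧
      v = FF m - FF m') ∧ Psi K θ v = el K b + ∑ k ∈ (R ∪ S), el K (zc k) := by
    intro S hS
    rw [mem_filter] at hS
    exact exists_vec hθ zc hz b hb N (R ∪ S) hS.2
  choose! v hv1 hv2 using key
  have hdisj : ∀ S ∈ J.powerset.filter (fun S => Quo K θ N (b * ∏ k ∈ (R ∪ S), zc k)),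
      Psi K θ (v S) = (el K b + ∑ k ∈ R, el K (zc k)) + ∑ k ∈ S, el K (zc k) := by
    intro S hS
    rw [hv2 S hS, sum_union, add_assoc]
    rw [mem_filter, mem_powerset] at hS
    exact (disjoint_of_subset_left hR sdiff_disjoint).mono_right hS.1
  refine count_vec _ v N J.card (L.comap (Psi K θ)) hZ (hZr.trans hLr) ?_ ?_ hv1
  · intro S hS S' hS' hSS
    have e := congrArg (Psi K θ) hSS
    rw [hdisj S hS, hdisj S' hS', add_right_inj] at e
    rw [mem_coe, mem_filter, mem_powerset] at hS hS'
    -- linear independence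
    have g : ∀ S ⊆ J, ∑ k ∈ S, el K (zc k) = ∑ k : J, (if (k : X) ∈ S then (1 : ℚ) else 0) •
        el K (zc k) := by
      intro S hS
      rw [← Finset.sum_coe_sort J (fun k => (if k ∈ S then (1 : ℚ) else 0) • el K (zc k)) |>.symm]
      simp only [ite_smul, one_smul, zero_smul]
      rw [← sum_filter]
      congr 1
      ext k
      rw [mem_filter]
      exact ⟨fun h => ⟨hS h, h⟩, fun h => h.2⟩
    rw [g S hS.1, g S' hS'.1, ← sub_eq_zero, ← sum_sub_distrib] at e
    have e2 := Fintype.linearIndependent_iff.1 hind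
      (fun k => (if (k : X) ∈ S then (1 : ℚ) else 0) - (if (k : X) ∈ S' then (1 : ℚ) else 0)) (by
        rw [← e]
        exact sum_congr rfl fun k _ => by rw [sub_smul])
    ext k
    constructor
    · intro hk
      by_contra hk'
      have := e2 ⟨k, hS.1 hk⟩
      simp [hk, hk'] at this
    · intro hk
      by_contra hk'
      have := e2 ⟨k, hS'.1 hk⟩
      simp [hk, hk'] at this
  · intro S hS S' hS'
    rw [Submodule.mem_comap, map_sub, hdisj S hS, hdisj S' hS', add_sub_add_left_eq_sub]
    rw [mem_filter, mem_powerset] at hS hS'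
    refine L.sub_mem ?_ ?_
    · exact L.sum_mem fun k hk => Submodule.subset_span (mem_coe.2 (mem_image_of_mem _ (hS.1 hk)))
    · exact L.sum_mem fun k hk => Submodule.subset_span (mem_coe.2 (mem_image_of_mem _ (hS'.1 hk)))

open Classical in
include hθ in
/-- few multiplicatively independent factors, many of them not radicals -/
theorem case_lo {X : Type*} (zc : X → ℂ) (hz : ∀ k, zc k ≠ 0) (b : ℂ) (hb : b ≠ 0) (N m P : ℕ)
    (hP : 0 < P) (U : Finset X)
    (hrk : finrank ℚ (Submodule.span ℚ ((U.image fun k => el K (zc k) : Finset (EE K)) : Set (EE K))) ≤ m)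
    (hUP : P ≤ (U.filter fun k => el K (zc k) ≠ 0).card) :
    ((U.powerset.filter (fun S => Quo K θ N (b * ∏ k ∈ S, zc k))).card : ℝ) ≤
      (m + 1) ^ (2 * N) * ((1 / Real.sqrt P) * 2 ^ U.card) := by
  set L : Submodule ℚ (EE K) := Submodule.span ℚ ((U.image fun k => el K (zc k) : Finset (EE K)) : Set (EE K))
    with hL
  have hLf : FiniteDimensional ℚ L := FiniteDimensional.span_finset ℚ _
  obtain ⟨hZ, hZr⟩ := comap_finrank hθ L hLf
  have key : ∀ S ∈ U.powerset.filter (fun S => Quo K θ N (b * ∏ k ∈ S, zc k)),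
      ∃ v : Irr K r →₀ ℚ, (∃ m m' : Multiset (Irr K r), Multiset.card m ≤ N ∧ Multiset.card m' ≤ N ∧
      v = FF m - FF m') ∧ Psi K θ v = el K b + ∑ k ∈ S, el K (zc k) := by
    intro S hS
    rw [mem_filter] at hS
    exact exists_vec hθ zc hz b hb N S hS.2
  choose! v hv1 hv2 using key
  set A := U.powerset.filter (fun S => Quo K θ N (b * ∏ k ∈ S, zc k)) with hA
  -- the exponent vectors
  have hcard : (A.image v).card ≤ (m + 1) ^ (2 * N) := by
    refine count_vec (A.image v) id N m (L.comap (Psi K θ)) hZ (hZr.trans hrk)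
      (Function.injective_id.injOn) ?_ ?_
    · intro x hx y hy
      obtain ⟨S, hS, rfl⟩ := mem_image.1 hx
      obtain ⟨S', hS', rfl⟩ := mem_image.1 hy
      rw [Submodule.mem_comap, map_sub, id, id, hv2 S hS, hv2 S' hS', add_sub_add_left_eq_sub]
      rw [hA, mem_filter, mem_powerset] at hS hS'
      refine L.sub_mem ?_ ?_
      · exact L.sum_mem fun k hk => Submodule.subset_span (mem_coe.2 (mem_image_of_mem _ (hS.1 hk)))
      · exact L.sum_mem fun k hk =>
          Submodule.subset_span (mem_coe.2 (mem_image_of_mem _ (hS'.1 hk)))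
    · intro x hx
      obtain ⟨S, hS, rfl⟩ := mem_image.1 hx
      exact hv1 S hS
  have h2 : A.card = ∑ w ∈ A.image v, (A.filter (fun S => v S = w)).card :=
    Finset.card_eq_sum_card_image v A
  have h3 : (A.card : ℝ) ≤ ∑ w ∈ A.image v, (1 / Real.sqrt P) * 2 ^ U.card := by
    rw [h2]
    push_cast
    refine sum_le_sum fun w hw => ?_
    have h4 := Pool.Agent.Y918.QC.lo_count U (fun k => el K (zc k)) (⊥ : Submodule ℚ (EE K))
      (Psi K θ w - el K b) P hP (by simpa only [Submodule.mem_bot] using hUP)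
    refine le_trans ?_ h4
    have h5 : A.filter (fun S => v S = w) ⊆ U.powerset.filter
        (fun S => ∑ x ∈ S, el K (zc x) - (Psi K θ w - el K b) ∈ (⊥ : Submodule ℚ (EE K))) := by
      intro S hS
      rw [mem_filter] at hS
      obtain ⟨hS1, hS2⟩ := hS
      have h6 := hv2 S hS1
      rw [hA, mem_filter] at hS1
      rw [mem_filter]
      refine ⟨hS1.1, ?_⟩
      rw [Submodule.mem_bot, ← hS2, h6]
      abel
    exact_mod_cast card_le_card h5
  refine h3.trans ?_
  rw [sum_const, nsmul_eq_mul]
  gcongr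
  exact_mod_cast hcard

/-- all products over subsets of `J` are different modulo the field -/
def Dis (K : Type) [Field K] [Algebra K ℂ] {X : Type*} (zc : X → ℂ) (J : Finset X) : Prop :=
  ∀ U ⊆ J, ∀ U' ⊆ J, (∃ q : K, ∏ k ∈ U, zc k = algebraMap K ℂ q * ∏ k ∈ U', zc k) → U = U'

omit hθ in
theorem span_fin [Algebra ℚ K] [FiniteDimensional ℚ K] (F : Finset ℂ) :
    ∃ V : Submodule ℚ ℂ, FiniteDimensional ℚ V ∧ finrank ℚ V ≤ finrank ℚ K * F.card ∧
      ∀ x ∈ F, ∀ q : K, algebraMap K ℂ q * x ∈ V := by
  classical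
  have hst : IsScalarTower ℚ K ℂ := inferInstance
  set S : Submodule K ℂ := Submodule.span K (F : Set ℂ) with hS
  have h1 : FiniteDimensional K S := FiniteDimensional.span_finset K _
  have h2 : FiniteDimensional ℚ S := FiniteDimensional.trans ℚ K S
  have h3 : finrank ℚ S = finrank ℚ K * finrank K S := (finrank_mul_finrank ℚ K S).symm
  refine ⟨S.restrictScalars ℚ, h2, ?_, ?_⟩
  · have h4 : finrank ℚ (S.restrictScalars ℚ) = finrank ℚ S := rfl
    rw [h4, h3]
    exact Nat.mul_le_mul_left _ (finrank_span_finset_le_card _)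
  · intro x hx q
    have h5 : q • x ∈ S := S.smul_mem q (Submodule.subset_span hx)
    rw [Algebra.smul_def] at h5
    exact h5

open Classical in
theorem exists_dis [Algebra ℚ K] [FiniteDimensional ℚ K] {X : Type*} (zc : X → ℂ)
    (hz : ∀ k, zc k ≠ 0) (U Y : Finset X) (D : ℕ)
    (hD : ∀ V : Submodule ℚ ℂ, FiniteDimensional ℚ V → finrank ℚ V ≤ D → ∃ k ∈ U, zc k ∉ V) :
    ∀ m : ℕ, finrank ℚ K * 4 ^ m + Y.card ≤ D → ∃ J ⊆ U \ Y, J.card = m ∧ Dis K zc J := by
  intro m
  induction m with
  | zero =>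
    intro _
    refine ⟨∅, by simp, rfl, ?_⟩
    intro U hU U' hU' _
    rw [subset_empty.1 hU, subset_empty.1 hU']
  | succ m ih =>
    intro hm
    have hm0 : finrank ℚ K * 4 ^ m + Y.card ≤ D := by
      have : finrank ℚ K * 4 ^ m ≤ finrank ℚ K * 4 ^ (m + 1) :=
        Nat.mul_le_mul_left _ (Nat.pow_le_pow_right (by norm_num) (by omega))
      omega
    obtain ⟨J, hJ, hJc, hJd⟩ := ih hm0
    set F : Finset ℂ := (J.powerset ×ˢ J.powerset).image
      (fun p => (∏ k ∈ p.1, zc k) / (∏ k ∈ p.2, zc k)) with hF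
    have hFc : F.card ≤ 4 ^ m := by
      refine card_image_le.trans ?_
      rw [card_product, card_powerset, hJc, ← pow_add, ← two_mul, pow_mul]
      norm_num
    obtain ⟨V1, hV1, hV1r, hV1m⟩ := span_fin (K := K) F
    set V : Submodule ℚ ℂ := V1 ⊔ Submodule.span ℚ ((Y.image zc : Finset ℂ) : Set ℂ) with hV
    have hYf : FiniteDimensional ℚ (Submodule.span ℚ ((Y.image zc : Finset ℂ) : Set ℂ)) :=
      FiniteDimensional.span_finset ℚ _
    have hVf : FiniteDimensional ℚ V := Submodule.finite_sup _ _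
    have hVr : finrank ℚ V ≤ D := by
      refine (Submodule.finrank_add_le_finrank_add_finrank _ _).trans ?_
      have h1 : finrank ℚ (Submodule.span ℚ ((Y.image zc : Finset ℂ) : Set ℂ)) ≤ Y.card :=
        (finrank_span_finset_le_card _).trans card_image_le
      have h2 : finrank ℚ K * F.card ≤ finrank ℚ K * 4 ^ m := Nat.mul_le_mul_left _ hFc
      omega
    obtain ⟨i, hiU, hi⟩ := hD V hVf hVr
    have hprod : ∀ S : Finset X, (∏ k ∈ S, zc k) ≠ 0 := fun S => prod_ne_zero_iff.2 fun k _ => hz k
    have hmem : ∀ A ⊆ J, ∀ B ⊆ J, ∀ q : K,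
        algebraMap K ℂ q * ((∏ k ∈ A, zc k) / (∏ k ∈ B, zc k)) ∈ V := by
      intro A hA B hB q
      have h1 : (∏ k ∈ A, zc k) / (∏ k ∈ B, zc k) ∈ F :=
        mem_image.2 ⟨(A, B), mem_product.2 ⟨mem_powerset.2 hA, mem_powerset.2 hB⟩, rfl⟩
      exact Submodule.mem_sup_left (hV1m _ h1 q)
    have hiJ : i ∉ J := by
      intro h
      apply hi
      have := hmem {i} (singleton_subset_iff.2 h) ∅ (empty_subset _) 1
      simpa using this
    have hiY : i ∉ Y := by
      intro h
      apply hi
      exact Submodule.mem_sup_right (Submodule.subset_span (mem_coe.2 (mem_image_of_mem _ h)))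
    refine ⟨insert i J, ?_, by rw [card_insert_of_notMem hiJ, hJc], ?_⟩
    · intro k hk
      rcases mem_insert.1 hk with rfl | hk
      · exact mem_sdiff.2 ⟨hiU, hiY⟩
      · exact hJ hk
    · intro A hA B hB hAB
      have hA' : A.erase i ⊆ J := by
        intro k hk
        rcases mem_insert.1 (hA (mem_of_mem_erase hk)) with h | h
        · exact absurd h (ne_of_mem_erase hk)
        · exact h
      have hB' : B.erase i ⊆ J := by
        intro k hk
        rcases mem_insert.1 (hB (mem_of_mem_erase hk)) with h | h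
        · exact absurd h (ne_of_mem_erase hk)
        · exact h
      obtain ⟨q, hq⟩ := hAB
      have hq0 : algebraMap K ℂ q ≠ 0 := by
        intro h
        rw [h, zero_mul] at hq
        exact hprod A hq
      by_cases h1 : i ∈ A <;> by_cases h2 : i ∈ B
      · rw [← mul_prod_erase A zc h1, ← mul_prod_erase B zc h2] at hq
        have h3 : A.erase i = B.erase i := by
          refine hJd _ hA' _ hB' ⟨q, ?_⟩
          refine mul_left_cancel₀ (hz i) ?_
          rw [hq]; ring
        rw [← insert_erase h1, ← insert_erase h2, h3]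
      · exfalso
        rw [← mul_prod_erase A zc h1] at hq
        rw [erase_eq_of_notMem h2] at hB'
        apply hi
        have h4 : zc i = algebraMap K ℂ q * ((∏ k ∈ B, zc k) / (∏ k ∈ A.erase i, zc k)) := by
          rw [← mul_div_assoc, eq_div_iff (hprod _)]
          exact hq
        rw [h4]
        exact hmem _ hB' _ hA' q
      · exfalso
        rw [← mul_prod_erase B zc h2] at hq
        rw [erase_eq_of_notMem h1] at hA'
        apply hi
        have h4 : zc i = algebraMap K ℂ q⁻¹ * ((∏ k ∈ A, zc k) / (∏ k ∈ B.erase i, zc k)) := by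
          rw [← mul_div_assoc, eq_div_iff (hprod _), hq, map_inv₀]
          field_simp
        rw [h4]
        exact hmem _ hA' _ hB' _
      · rw [erase_eq_of_notMem h1] at hA'
        rw [erase_eq_of_notMem h2] at hB'
        exact hJd _ hA' _ hB' ⟨q, hq⟩

open Classical in
include hθ in
/-- many radicals -/
theorem case_rad {X : Type*} (zc : X → ℂ) (hz : ∀ k, zc k ≠ 0) (b : ℂ) (hb : b ≠ 0) (N : ℕ)
    (U J : Finset X) (hJ : J ⊆ U) (hJ0 : ∀ k ∈ J, el K (zc k) = 0) (hdis : Dis K zc J) :
    (U.powerset.filter (fun S => Quo K θ N (b * ∏ k ∈ S, zc k))).card ≤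
      2 ^ (U.card - J.card) * 1 := by
  refine count_fiber U J hJ _ _ fun R hR => ?_
  rw [card_le_one]
  intro S hS S' hS'
  rw [mem_filter, mem_powerset] at hS hS'
  have hprod : ∀ S : Finset X, (∏ k ∈ S, zc k) ≠ 0 := fun S => prod_ne_zero_iff.2 fun k _ => hz k
  have hd : ∀ S ⊆ J, Disjoint R S := fun S hS =>
    (disjoint_of_subset_left hR sdiff_disjoint).mono_right hS
  have hel : ∀ S ⊆ J, el K (b * ∏ k ∈ (R ∪ S), zc k) = el K b + ∑ k ∈ R, el K (zc k) := by
    intro S hS
    rw [el_mul K hb (hprod _), el_prod K _ _ fun k _ => hz k, sum_union (hd S hS),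
      sum_eq_zero fun k hk => hJ0 k (hS hk), add_zero]
  obtain ⟨q, hq⟩ := hS.2.rat hθ (mul_ne_zero hb (hprod _)) hS'.2 (mul_ne_zero hb (hprod _))
    ((hel S hS.1).trans (hel S' hS'.1).symm)
  refine hdis S hS.1 S' hS'.1 ⟨q, ?_⟩
  rw [prod_union (hd S hS.1), prod_union (hd S' hS'.1)] at hq
  refine mul_left_cancel₀ (mul_ne_zero hb (hprod R)) ?_
  linear_combination hq

open Classical in
include hθ in
/-- **The main estimate.** -/
theorem main_count [Algebra ℚ K] [FiniteDimensional ℚ K] {X : Type*} (zc : X → ℂ) (hz : ∀ k, zc k ≠ 0) (b : ℂ) (hb : b ≠ 0)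
    (N m P D : ℕ) (hP : 0 < P) (U : Finset X)
    (hD : ∀ V : Submodule ℚ ℂ, FiniteDimensional ℚ V → finrank ℚ V ≤ D → ∃ k ∈ U, zc k ∉ V)
    (hmD : finrank ℚ K * 4 ^ m + P ≤ D) :
    ((U.powerset.filter (fun S => Quo K θ N (b * ∏ k ∈ S, zc k))).card : ℝ) ≤
      (((m : ℝ) + 1) ^ (2 * N) / 2 ^ m + ((m : ℝ) + 1) ^ (2 * N) / Real.sqrt P) * 2 ^ U.card := by
  have hfin : ∀ J : Finset X, J ⊆ U → J.card = m → ∀ C : ℕ, (C : ℝ) ≤ ((m : ℝ) + 1) ^ (2 * N) →
      (((2 ^ (U.card - J.card) * C : ℕ)) : ℝ) ≤
        (((m : ℝ) + 1) ^ (2 * N) / 2 ^ m + ((m : ℝ) + 1) ^ (2 * N) / Real.sqrt P) * 2 ^ U.card := by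
    intro J hJ hJm C hC
    have h1 : (2 : ℝ) ^ U.card = 2 ^ (U.card - J.card) * 2 ^ m := by
      rw [← pow_add, ← hJm]
      congr 1
      have := card_le_card hJ
      omega
    have h2 : 0 ≤ ((m : ℝ) + 1) ^ (2 * N) / Real.sqrt P := by positivity
    push_cast
    calc (2 : ℝ) ^ (U.card - J.card) * C ≤ 2 ^ (U.card - J.card) * ((m : ℝ) + 1) ^ (2 * N) := by
          gcongr
      _ = ((m : ℝ) + 1) ^ (2 * N) / 2 ^ m * 2 ^ U.card := by
          rw [h1]; field_simp
      _ ≤ _ := by
          gcongr
          linarith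
  by_cases h1 : m ≤ finrank ℚ
      (Submodule.span ℚ ((U.image fun k => el K (zc k) : Finset (EE K)) : Set (EE K)))
  · -- independent factors
    obtain ⟨κ, a, ha, hspan, hli⟩ := exists_linearIndependent' ℚ (fun k : U => el K (zc k))
    have hr : Set.range (fun k : U => el K (zc k)) =
        ((U.image fun k => el K (zc k) : Finset (EE K)) : Set (EE K)) := by
      ext x
      simp
    have hκ : Finite κ := Finite.of_injective a ha
    have := Fintype.ofFinite κ
    have hcard : m ≤ Fintype.card κ := by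
      rw [← hr, ← hspan, finrank_span_eq_card hli] at h1
      exact h1
    obtain ⟨K', -, hK'⟩ := Finset.exists_subset_card_eq (s := (univ : Finset κ)) (n := m)
      (by rw [card_univ]; exact hcard)
    set J : Finset X := K'.image (fun k => ((a k : U) : X)) with hJ
    have hinjJ : Function.Injective (fun k : κ => ((a k : U) : X)) :=
      Subtype.val_injective.comp ha
    have hJU : J ⊆ U := by
      intro x hx
      obtain ⟨k, -, rfl⟩ := mem_image.1 hx
      exact (a k).2
    have hJc : J.card = m := by rw [hJ, card_image_of_injective _ hinjJ, hK']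
    have hJi : LinearIndependent ℚ (fun k : J => el K (zc k)) := by
      have h3 : ∀ x : J, ∃ k : κ, ((a k : U) : X) = x := fun x => by
        obtain ⟨k, -, hk⟩ := mem_image.1 x.2
        exact ⟨k, hk⟩
      choose g hg using h3
      have hginj : Function.Injective g := by
        intro x y hxy
        apply Subtype.ext
        rw [← hg x, ← hg y, hxy]
      have h4 := hli.comp g hginj
      have h5 : (fun k : J => el K (zc k)) = ((fun k : U => el K (zc k)) ∘ a) ∘ g := by
        funext x
        simp only [Function.comp_apply]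
        rw [hg x]
      rw [h5]
      exact h4
    have h6 := case_indep hθ zc hz b hb N U J hJU hJi
    refine le_trans (by exact_mod_cast h6) (hfin J hJU hJc _ ?_)
    rw [hJc]
    push_cast
    exact le_rfl
  · push Not at h1
    by_cases h2 : P ≤ (U.filter fun k => el K (zc k) ≠ 0).card
    · have h3 := case_lo hθ zc hz b hb N m P hP U h1.le h2
      refine h3.trans ?_
      have h4 : 0 ≤ ((m : ℝ) + 1) ^ (2 * N) / 2 ^ m := by positivity
      calc ((m : ℝ) + 1) ^ (2 * N) * (1 / Real.sqrt P * 2 ^ U.card) =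
          ((m : ℝ) + 1) ^ (2 * N) / Real.sqrt P * 2 ^ U.card := by ring
        _ ≤ _ := by
            gcongr
            linarith
    · push Not at h2
      obtain ⟨J, hJ, hJc, hJd⟩ := exists_dis (K := K) zc hz U
        (U.filter fun k => el K (zc k) ≠ 0) D hD m (by omega)
      have hJU : J ⊆ U := hJ.trans sdiff_subset
      have h6 := case_rad hθ zc hz b hb N U J hJU (fun k hk => by
        have := hJ hk
        rw [mem_sdiff, mem_filter, not_and, not_not] at this
        exact this.2 this.1) hJd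
      refine le_trans (by exact_mod_cast h6) (hfin J hJU hJc _ ?_)
      have : (1 : ℝ) ≤ (m : ℝ) + 1 := by
        have : (0 : ℝ) ≤ m := Nat.cast_nonneg m
        linarith
      rw [Nat.cast_one]
      exact one_le_pow₀ this

end main

end Pool.Agent.E8helper75.ZP
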