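import Mathlib
import Pool.Agent.Y926.TW.Dist

set_option autoImplicit false

/-!
# Odd zeta values outside complex subspaces, in windows
-/

namespace Pool.Agent.E8helper75.ZP

open Module

theorem zeta_val (k : ℕ) :
    riemannZeta (2 * k + 3) = ((∑' n : ℕ, 1 / ((n : ℝ) + 1) ^ (2 * k + 3) : ℝ) : ℂ) := by
  have h := zeta_nat_eq_tsum_of_gt_one (k := 2 * k + 3) (by omega)
  push_cast at h
  rw [h]
  push_cast
  have h0 : Summable (fun n : ℕ => 1 / (n : ℂ) ^ (2 * k + 3)) := by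
    have := (Complex.summable_one_div_nat_cpow (p := ((2 * k + 3 : ℕ) : ℂ))).2 (by
      rw [Complex.natCast_re]
      exact_mod_cast (by omega : 1 < 2 * k + 3))
    simpa only [Complex.cpow_natCast] using this
  rw [h0.tsum_eq_zero_add]
  have h1 : (1 : ℂ) / ((0 : ℕ) : ℂ) ^ (2 * k + 3) = 0 := by
    rw [Nat.cast_zero, zero_pow (by omega), div_zero]
  rw [h1, zero_add]
  refine tsum_congr fun n => ?_
  push_cast
  rfl

theorem zeta_ne (k : ℕ) : riemannZeta (2 * k + 3) ≠ 0 := by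
  apply riemannZeta_ne_zero_of_one_lt_re
  have : (2 * (k : ℂ) + 3).re = 2 * k + 3 := by simp
  rw [this]
  have : (0 : ℝ) ≤ k := Nat.cast_nonneg k
  linarith

theorem outside : ∃ n₀ : ℕ, ∀ n ≥ n₀, ∀ n₁ : ℕ, n₁ ^ 2 ≤ n → ∀ V : Submodule ℚ ℂ,
    FiniteDimensional ℚ V → (finrank ℚ V : ℝ) ≤ Real.log n / 400 →
    ∃ k : ℕ, n₁ ≤ k ∧ k < n ∧ riemannZeta (2 * k + 3) ∉ V := by
  have hlim : Filter.Tendsto (fun n : ℕ => Real.log (n : ℝ)) Filter.atTop Filter.atTop :=
    Real.tendsto_log_atTop.comp tendsto_natCast_atTop_atTop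
  obtain ⟨n₀, hn₀⟩ := Filter.eventually_atTop.1 (hlim.eventually_ge_atTop 130)
  refine ⟨n₀ + 1, fun n hn n₁ hn₁ V hV hVr => ?_⟩
  have hL := hn₀ n (by omega)
  set L := Real.log (n : ℝ) with hLdef
  have hn1 : 1 ≤ n := by omega
  have hnR : (1 : ℝ) ≤ n := by exact_mod_cast hn1
  have hn0 : (0 : ℝ) < n := by linarith
  have hexp : Real.exp L = n := Real.exp_log hn0
  -- the real part of the space
  let f : ℝ →ₗ[ℚ] ℂ := (Algebra.linearMap ℝ ℂ).restrictScalars ℚ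
  have hf : Function.Injective f := Complex.ofReal_injective
  set W : Submodule ℚ ℝ := V.comap f with hW
  let g : W →ₗ[ℚ] V := f.restrict (fun x hx => hx)
  have hg : Function.Injective g := by
    intro x y hxy
    apply Subtype.ext
    apply hf
    exact congrArg Subtype.val hxy
  have hWf : FiniteDimensional ℚ W := FiniteDimensional.of_injective g hg
  have hWr : finrank ℚ W ≤ finrank ℚ V := LinearMap.finrank_le_finrank_of_injective hg
  set D := finrank ℚ V with hD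
  have hs : (2 : ℝ) ^ (132 * (D + 1)) * (((2 * n₁ + 2 : ℕ) : ℝ) + 1) ^ 2 * ((1 : ℕ) : ℝ) ^ 3 *
      Real.log (((1 : ℕ) : ℝ) + 1) ≤ ((2 * n + 1 : ℕ) : ℝ) ^ 2 := by
    have e1 : (2 : ℝ) ^ (132 * (D + 1)) ≤ Real.exp (92 + 0.23 * L) := by
      have h1 : (2 : ℝ) = Real.exp (Real.log 2) := (Real.exp_log (by norm_num)).symm
      rw [h1, ← Real.exp_nat_mul]
      apply Real.exp_le_exp.2
      push_cast
      have h2 := Real.log_two_lt_d9
      have h3 : (0 : ℝ) ≤ 132 * ((D : ℝ) + 1) := by positivity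
      calc 132 * ((D : ℝ) + 1) * Real.log 2 ≤ 132 * ((D : ℝ) + 1) * 0.6931471808 := by gcongr
        _ ≤ 132 * (L / 400 + 1) * 0.6931471808 := by gcongr
        _ ≤ _ := by linarith
    have e2 : (((2 * n₁ + 2 : ℕ) : ℝ) + 1) ^ 2 ≤ 25 * Real.exp L := by
      rw [hexp]
      have h1 : (n₁ : ℝ) ^ 2 ≤ n := by exact_mod_cast hn₁
      push_cast
      nlinarith [sq_nonneg ((n₁ : ℝ) - 1)]
    have e3 : Real.log (((1 : ℕ) : ℝ) + 1) ≤ 1 := by
      have := Real.log_two_lt_d9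
      rw [show ((1 : ℕ) : ℝ) + 1 = 2 by norm_num]
      linarith
    have e4 : (0 : ℝ) ≤ Real.log (((1 : ℕ) : ℝ) + 1) := by
      rw [show ((1 : ℕ) : ℝ) + 1 = 2 by norm_num]
      exact Real.log_nonneg (by norm_num)
    have e5 : (4 : ℝ) * Real.exp (2 * L) ≤ ((2 * n + 1 : ℕ) : ℝ) ^ 2 := by
      rw [two_mul, Real.exp_add, hexp]
      push_cast
      nlinarith
    have e6 : (25 : ℝ) ≤ 4 * Real.exp 2 := by
      have := Real.exp_one_gt_d9
      rw [show (2 : ℝ) = 1 + 1 by norm_num, Real.exp_add]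
      nlinarith
    calc (2 : ℝ) ^ (132 * (D + 1)) * (((2 * n₁ + 2 : ℕ) : ℝ) + 1) ^ 2 * ((1 : ℕ) : ℝ) ^ 3 *
        Real.log (((1 : ℕ) : ℝ) + 1) ≤ Real.exp (92 + 0.23 * L) * (25 * Real.exp L) * 1 * 1 := by
          have : ((1 : ℕ) : ℝ) ^ 3 = 1 := by norm_num
          rw [this]
          gcongr
      _ = Real.exp (92 + 0.23 * L) * Real.exp L * 25 := by ring
      _ ≤ Real.exp (92 + 0.23 * L) * Real.exp L * (4 * Real.exp 2) := by gcongr
      _ = 4 * Real.exp (94 + 1.23 * L) := by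
          have e7 : Real.exp (94 + 1.23 * L) =
              Real.exp (92 + 0.23 * L) * Real.exp L * Real.exp 2 := by
            rw [← Real.exp_add, ← Real.exp_add]
            congr 1
            ring
          rw [e7]
          ring
      _ ≤ 4 * Real.exp (2 * L) := by
          gcongr
          linarith
      _ ≤ _ := e5
  have h := Pool.Agent.Y926.TW.window_space (b := 2 * n₁ + 2) (K := 1) (D := D) (s := 2 * n + 1)
    le_rfl hs W hWf hWr
  obtain ⟨j, hj1, hj2, hj3, hj4⟩ := Set.nonempty_of_ncard_ne_zero (by omega :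
    Set.ncard {j : ℕ | 2 * n₁ + 2 < j ∧ j ≤ 2 * n + 1 ∧ Odd j ∧ ∀ r : ℚ,
      (∑' n : ℕ, 1 / ((n : ℝ) + 1) ^ j) - r ∉ W} ≠ 0)
  obtain ⟨t, ht⟩ := hj3
  refine ⟨t - 1, by omega, by omega, ?_⟩
  intro hmem
  apply hj4 0
  have hj : j = 2 * (t - 1) + 3 := by omega
  rw [zeta_val, ← hj] at hmem
  rw [Rat.cast_zero, sub_zero]
  exact hmem

end Pool.Agent.E8helper75.ZP
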