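import Mathlib
import Pool.Agent.E8helper75.ZP.Out
import Pool.Agent.E8helper75.ZP.Cnt

set_option autoImplicit false

/-!
# Random products of odd zeta values are not rational functions of bounded degree
-/

namespace Pool.Agent.E8helper75.ZP

open Module Filter

/-- the choice of the parameters -/
theorem params (N : ℕ) (c : ℝ) (hc0 : 0 < c) (hc : c < 1 / 2) : ∃ L₀ : ℝ, ∀ L : ℝ, L₀ ≤ L →
    ∃ m P : ℕ, 0 < P ∧
      (∀ d : ℕ, (d : ℝ) ≤ L ^ (1 / 2 - c) → d * 4 ^ m + P ≤ ⌊L / 400⌋₊) ∧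
      ((m : ℝ) + 1) ^ (2 * N) / 2 ^ m + ((m : ℝ) + 1) ^ (2 * N) / Real.sqrt P ≤ L ^ (-c) := by
  obtain ⟨g, hg⟩ : ∃ g : ℝ, g = 1 / 2 - c := ⟨_, rfl⟩
  have hg0 : 0 < g := by rw [hg]; linarith
  have hg1 : g < 1 / 2 := by rw [hg]; linarith
  obtain ⟨a, ha⟩ : ∃ a : ℝ, a = c + g / 4 := ⟨_, rfl⟩
  have ha0 : 0 < a := by rw [ha]; linarith
  have ha1 : a < 1 / 2 := by rw [ha, hg]; linarith
  obtain ⟨s, hs⟩ : ∃ s : ℝ, s = g / (8 * (2 * N + 1)) := ⟨_, rfl⟩
  have hNpos : (0 : ℝ) < 8 * (2 * N + 1) := by positivity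
  have hs0 : 0 < s := by rw [hs]; positivity
  have hsN : (2 * N : ℕ) * s ≤ g / 8 := by
    rw [hs]
    push_cast
    rw [mul_div_assoc', div_le_div_iff₀ hNpos (by norm_num)]
    nlinarith
  have e1 : ∀ᶠ L : ℝ in atTop, 2 * Real.log L ≤ L ^ s := by
    have h := (isLittleO_log_rpow_atTop hs0).bound (show (0 : ℝ) < 1 / 2 by norm_num)
    filter_upwards [h, eventually_ge_atTop 1] with L hL hL1
    rw [Real.norm_of_nonneg (Real.log_nonneg hL1),
      Real.norm_of_nonneg (Real.rpow_nonneg (by linarith) _)] at hL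
    linarith
  have e2 : ∀ᶠ L : ℝ in atTop, 34 ≤ L ^ (g / 8) :=
    (tendsto_rpow_atTop (by positivity)).eventually_ge_atTop _
  have e3 : ∀ᶠ L : ℝ in atTop, 1000 ≤ L ^ (g / 2) :=
    (tendsto_rpow_atTop (by positivity)).eventually_ge_atTop _
  obtain ⟨L₀, hL₀⟩ := eventually_atTop.1 (e1.and (e2.and (e3.and (eventually_ge_atTop 4000))))
  refine ⟨L₀, fun L hL => ?_⟩
  obtain ⟨h1, h2, h3, h4⟩ := hL₀ L hL
  have hLpos : 0 < L := by linarith
  have hL1 : 1 ≤ L := by linarith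
  have hlog1 : 1 ≤ Real.log L := by
    rw [Real.le_log_iff_exp_le hLpos]
    have := Real.exp_one_lt_d9
    linarith
  have hLa1 : 1 ≤ L ^ a := Real.one_le_rpow hL1 ha0.le
  set x : ℕ := ⌊L ^ a⌋₊ with hx
  have hx0 : x ≠ 0 := by
    rw [hx]
    exact (Nat.floor_pos.2 hLa1).ne'
  have hxle : (x : ℝ) ≤ L ^ a := Nat.floor_le (by positivity)
  have hxlt : L ^ a < (x : ℝ) + 1 := Nat.lt_floor_add_one _
  set m : ℕ := Nat.log 2 x with hm
  have hm1 : ((2 : ℝ)) ^ m ≤ L ^ a := by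
    have : 2 ^ m ≤ x := Nat.pow_log_le_self 2 hx0
    refine le_trans ?_ hxle
    exact_mod_cast this
  have hm2 : L ^ a ≤ 2 * (2 : ℝ) ^ m := by
    have : x < 2 ^ (m + 1) := Nat.lt_pow_succ_log_self (by norm_num) x
    have h5 : (x : ℝ) + 1 ≤ 2 ^ (m + 1) := by exact_mod_cast this
    rw [pow_succ] at h5
    linarith
  have hm3 : (m : ℝ) + 1 ≤ L ^ s := by
    refine le_trans ?_ h1
    have h5 : (m : ℝ) * Real.log 2 ≤ a * Real.log L := by
      rw [← Real.log_pow, ← Real.log_rpow hLpos]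
      exact Real.log_le_log (by positivity) hm1
    have h6 := Real.log_two_gt_d9
    have h7 : (m : ℝ) * 0.5 ≤ (m : ℝ) * Real.log 2 := by
      have : (0 : ℝ) ≤ m := Nat.cast_nonneg m
      gcongr
      linarith
    have h8 : a * Real.log L ≤ 1 / 2 * Real.log L := by gcongr
    linarith
  have hm4 : ((m : ℝ) + 1) ^ (2 * N) ≤ L ^ (g / 8) := by
    calc ((m : ℝ) + 1) ^ (2 * N) ≤ (L ^ s) ^ (2 * N) := by gcongr
      _ = L ^ (((2 * N : ℕ) : ℝ) * s) := by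
          rw [← Real.rpow_natCast (L ^ s) (2 * N), ← Real.rpow_mul hLpos.le, mul_comm]
      _ ≤ _ := Real.rpow_le_rpow_of_exponent_le hL1 hsN
  set P : ℕ := ⌊L / 1000⌋₊ + 1 with hP
  have hP1 : L / 1000 ≤ P := by
    rw [hP]; push_cast
    exact (Nat.lt_floor_add_one _).le
  have hP2 : (P : ℝ) ≤ L / 1000 + 1 := by
    rw [hP]; push_cast
    have := Nat.floor_le (show 0 ≤ L / 1000 by positivity)
    linarith
  refine ⟨m, P, by omega, fun d hd => ?_, ?_⟩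
  · apply Nat.le_floor
    push_cast
    have h5 : (d : ℝ) * 4 ^ m ≤ L / 1000 := by
      have h6 : (4 : ℝ) ^ m = 2 ^ m * 2 ^ m := by
        rw [← mul_pow]; norm_num
      rw [h6]
      calc (d : ℝ) * (2 ^ m * 2 ^ m) ≤ L ^ (1 / 2 - c) * (L ^ a * L ^ a) := by gcongr
        _ = L ^ (1 - g / 2) := by
            rw [← Real.rpow_add hLpos, ← Real.rpow_add hLpos]
            congr 1
            rw [ha, hg]; ring
        _ = L / L ^ (g / 2) := by rw [Real.rpow_sub hLpos, Real.rpow_one]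
        _ ≤ L / 1000 := by gcongr
    linarith
  · have hLa : 0 < L ^ a := by positivity
    have t1 : ((m : ℝ) + 1) ^ (2 * N) / 2 ^ m ≤ 2 * L ^ (-c - g / 8) := by
      calc ((m : ℝ) + 1) ^ (2 * N) / 2 ^ m ≤ L ^ (g / 8) / (L ^ a / 2) := by
            gcongr
            linarith
        _ = 2 * (L ^ (g / 8) / L ^ a) := by field_simp
        _ = 2 * L ^ (-c - g / 8) := by
            rw [← Real.rpow_sub hLpos]
            congr 2
            rw [ha]; ring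
    have t2 : ((m : ℝ) + 1) ^ (2 * N) / Real.sqrt P ≤ 32 * L ^ (-c - g / 8) := by
      have h5 : L ^ (1 / 2 : ℝ) / 32 ≤ Real.sqrt P := by
        rw [← Real.sqrt_eq_rpow]
        apply Real.le_sqrt_of_sq_le
        rw [div_pow, Real.sq_sqrt hLpos.le]
        have : L / 1000 ≤ P := hP1
        have h6 : L / 32 ^ 2 ≤ L / 1000 := by
          apply div_le_div_of_nonneg_left hLpos.le (by norm_num) (by norm_num)
        linarith
      calc ((m : ℝ) + 1) ^ (2 * N) / Real.sqrt P ≤ L ^ (g / 8) / (L ^ (1 / 2 : ℝ) / 32) := by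
            gcongr
        _ = 32 * (L ^ (g / 8) / L ^ (1 / 2 : ℝ)) := by field_simp
        _ = 32 * L ^ (g / 8 - 1 / 2) := by rw [← Real.rpow_sub hLpos]
        _ ≤ 32 * L ^ (-c - g / 8) := by
            refine mul_le_mul_of_nonneg_left (Real.rpow_le_rpow_of_exponent_le hL1 ?_) (by norm_num)
            have : c = 1 / 2 - g := by rw [hg]; ring
            linarith
    calc _ ≤ 2 * L ^ (-c - g / 8) + 32 * L ^ (-c - g / 8) := add_le_add t1 t2
      _ = 34 * (L ^ (-c) / L ^ (g / 8)) := by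
          rw [← Real.rpow_sub hLpos]; ring
      _ ≤ L ^ (g / 8) * (L ^ (-c) / L ^ (g / 8)) := by gcongr
      _ = L ^ (-c) := by
          have : L ^ (g / 8) ≠ 0 := (by positivity : (0 : ℝ) < L ^ (g / 8)).ne'
          field_simp

open Classical in
theorem products (N : ℕ) (c : ℝ) (hc0 : 0 < c) (hc : c < 1 / 2) : ∃ n₀ : ℕ, ∀ n ≥ n₀,
    ∀ n₁ : ℕ, n₁ ^ 2 ≤ n →
    ∀ (K : Type) [Field K] [Algebra K ℂ] [Algebra ℚ K] [FiniteDimensional ℚ K],
    (finrank ℚ K : ℝ) ≤ Real.log n ^ (1 / 2 - c) →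
    ∀ (r : ℕ) (θ : Fin r → ℂ), AlgebraicIndependent K θ → ∀ b : ℂ, b ≠ 0 →
      (((Finset.Ico n₁ n).powerset.filter
        (fun S => Quo K θ N (b * ∏ k ∈ S, riemannZeta (2 * (k : ℕ) + 3)))).card : ℝ) ≤
      Real.log n ^ (-c) * 2 ^ (n - n₁) := by
  obtain ⟨L₀, hL₀⟩ := params N c hc0 hc
  obtain ⟨n₂, hn₂⟩ := outside
  have hlim : Tendsto (fun n : ℕ => Real.log (n : ℝ)) atTop atTop :=
    Real.tendsto_log_atTop.comp tendsto_natCast_atTop_atTop
  obtain ⟨n₃, hn₃⟩ := eventually_atTop.1 (hlim.eventually_ge_atTop (max L₀ 1))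
  refine ⟨max n₂ n₃, fun n hn n₁ hn₁ K _ _ _ _ hK r θ hθ b hb => ?_⟩
  have hL := hn₃ n (le_trans (le_max_right _ _) hn)
  obtain ⟨m, P, hP, hd, hfin⟩ := hL₀ (Real.log n) ((le_max_left _ _).trans hL)
  have hLpos : 0 < Real.log n := lt_of_lt_of_le zero_lt_one ((le_max_right _ _).trans hL)
  have h := main_count hθ (fun k : ℕ => riemannZeta (2 * k + 3)) zeta_ne b hb N m P
    ⌊Real.log n / 400⌋₊ hP (Finset.Ico n₁ n) (fun V hV hVr => by
      obtain ⟨k, hk1, hk, hk2⟩ := hn₂ n (le_trans (le_max_left _ _) hn) n₁ hn₁ V hV (by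
        refine le_trans ?_ (Nat.floor_le (by positivity))
        exact_mod_cast hVr)
      exact ⟨k, Finset.mem_Ico.2 ⟨hk1, hk⟩, hk2⟩) (hd _ hK)
  refine h.trans ?_
  rw [Nat.card_Ico]
  gcongr

/-- a polynomial in one variable as a polynomial in `Fin 1` -/
theorem exists_mv {K : Type} [Field K] [Algebra K ℂ] (P : Polynomial K) (x : ℂ) :
    ∃ P' : MvPolynomial (Fin 1) K, P'.totalDegree ≤ P.natDegree ∧
      MvPolynomial.aeval (fun _ : Fin 1 => x) P' = Polynomial.aeval x P := by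
  refine ⟨Polynomial.aeval (MvPolynomial.X 0 : MvPolynomial (Fin 1) K) P, ?_, ?_⟩
  · rw [Polynomial.aeval_eq_sum_range]
    refine (MvPolynomial.totalDegree_finsetSum _ _).trans (Finset.sup_le fun i hi => ?_)
    refine (MvPolynomial.totalDegree_smul_le _ _).trans ?_
    rw [MvPolynomial.totalDegree_X_pow]
    exact Nat.lt_succ_iff.1 (Finset.mem_range.1 hi)
  · rw [← Polynomial.aeval_algHom_apply]
    simp

open Classical in
theorem products_pi (N : ℕ) (c : ℝ) (hc0 : 0 < c) (hc : c < 1 / 2) : ∃ n₀ : ℕ, ∀ n ≥ n₀,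
    ∀ n₁ : ℕ, n₁ ^ 2 ≤ n →
    ∀ (K : Type) [Field K] [Algebra K ℂ] [Algebra ℚ K] [FiniteDimensional ℚ K],
    (finrank ℚ K : ℝ) ≤ Real.log n ^ (1 / 2 - c) →
    ∀ x : ℂ, Transcendental ℚ x → ∀ b : ℂ, b ≠ 0 →
      (((Finset.Ico n₁ n).powerset.filter
        (fun S => ∃ P Q : Polynomial K, P.natDegree ≤ N ∧ Q.natDegree ≤ N ∧
          Polynomial.aeval x Q ≠ 0 ∧ b * ∏ k ∈ S, riemannZeta (2 * (k : ℕ) + 3) =
            Polynomial.aeval x P / Polynomial.aeval x Q)).card : ℝ) ≤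
      Real.log n ^ (-c) * 2 ^ (n - n₁) := by
  obtain ⟨n₀, h⟩ := products N c hc0 hc
  refine ⟨n₀, fun n hn n₁ hn₁ K _ _ _ _ hK x hx b hb => ?_⟩
  have h1 : AlgebraicIndependent ℚ (fun _ : Fin 1 => x) := by
    rw [algebraicIndependent_unique_type_iff]
    exact hx
  have hst : IsScalarTower ℚ K ℂ := inferInstance
  have h2 : AlgebraicIndependent K (fun _ : Fin 1 => x) := h1.extendScalars K
  refine le_trans ?_ (h n hn n₁ hn₁ K hK 1 (fun _ => x) h2 b hb)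
  refine Nat.cast_le.2 (Finset.card_le_card ?_)
  intro S hS
  rw [Finset.mem_filter] at hS ⊢
  obtain ⟨hS1, P, Q, hP, hQ, hQ0, hx2⟩ := hS
  obtain ⟨P', hP', hP2⟩ := exists_mv P x
  obtain ⟨Q', hQ', hQ2⟩ := exists_mv Q x
  refine ⟨hS1, P', Q', hP'.trans hP, hQ'.trans hQ, by rw [hQ2]; exact hQ0, ?_⟩
  rw [hP2, hQ2, hx2, div_mul_cancel₀ _ hQ0]

end Pool.Agent.E8helper75.ZP
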